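import Pool.Agent.Helper37.SU.Stmts

set_option autoImplicit false

/-! # SU: the final step -/

namespace Pool.Agent.Helper37.SU

open MeasureTheory Finset
open scoped ENNReal Classical

namespace Fin91

variable {𝕜 : Type} [RCLike 𝕜]

theorem toC_sub (a b : 𝕜) : SN.toC (a - b) = SN.toC a - SN.toC b := by
  unfold SN.toC
  apply Complex.ext
  · simp
  · simp

theorem toC_add (a b : 𝕜) : SN.toC (a + b) = SN.toC a + SN.toC b := by
  unfold SN.toC
  apply Complex.ext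
  · simp
  · simp

theorem toC_mul (a : 𝕜) (s : ℝ) : SN.toC (a * (s : 𝕜)) = SN.toC a * (s : ℂ) := by
  unfold SN.toC
  apply Complex.ext
  · simp
  · simp

theorem toC_zero : SN.toC (0 : 𝕜) = 0 := by
  unfold SN.toC
  apply Complex.ext
  · simp
  · simp

theorem toC_sum {ι : Type} (s : Finset ι) (g : ι → 𝕜) :
    SN.toC (∑ i ∈ s, g i) = ∑ i ∈ s, SN.toC (g i) := by
  induction s using Finset.induction_on with
  | empty => simp [toC_zero]
  | insert a s ha ih => rw [sum_insert ha, sum_insert ha, toC_add, ih]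

theorem norm_toC (a : 𝕜) : ‖SN.toC a‖ = ‖a‖ := by
  have h1 : ‖SN.toC a‖ ^ 2 = ‖a‖ ^ 2 := by
    rw [← Complex.normSq_eq_norm_sq, ← RCLike.normSq_eq_def', Complex.normSq_apply,
      RCLike.normSq_apply]
    rfl
  exact (pow_left_inj₀ (norm_nonneg _) (norm_nonneg _) two_ne_zero).1 h1

theorem toC_cont : Continuous (SN.toC : 𝕜 → ℂ) := by
  have h : (SN.toC : 𝕜 → ℂ) = fun z => ((RCLike.re z : ℝ) : ℂ) + ((RCLike.im z : ℝ) : ℂ) *
      Complex.I := by
    funext z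
    unfold SN.toC
    apply Complex.ext
    · simp
    · simp
  rw [h]
  exact (Complex.continuous_ofReal.comp RCLike.continuous_re).add
    ((Complex.continuous_ofReal.comp RCLike.continuous_im).mul continuous_const)

theorem tp_cont {d : ℕ} (Λ : Finset (Fin d → ℤ)) (c : (Fin d → ℤ) → ℂ) :
    Continuous (tp Λ c) := by
  unfold tp
  refine continuous_finsetSum _ fun k _ => continuous_const.mul ?_
  exact continuous_finsetProd _ fun i _ =>
    (ContinuousMap.continuous (fourier (k i))).comp (continuous_apply i)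

instance (d : ℕ) : IsProbabilityMeasure (haar d) := by
  unfold haar
  have : IsProbabilityMeasure haar1 := by
    unfold haar1
    infer_instance
  infer_instance

theorem transfer (hDEN : ST_DEN) (𝕜 : Type) [RCLike 𝕜] (d : ℕ) (r p q : ℝ) (hp : 1 ≤ p)
    (hq : 1 ≤ q) : ∃ CD : ℝ, 0 < CD ∧ ∀ (M : ℕ) (y : Fin M → TT d) (ψ : Fin M → C(TT d, ℝ))
      (E : ℝ), 0 ≤ E → (∀ (Λ : Finset (Fin d → ℤ)) (c : (Fin d → ℤ) → ℂ),
        eLpNorm (fun t => tp Λ (mc r c) t - ∑ i, tp Λ (mc r c) (y i) * ((ψ i t : ℝ) : ℂ))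
          (ENNReal.ofReal q) (haar d) ≤
        ENNReal.ofReal E * eLpNorm (tp Λ c) (ENNReal.ofReal p) (haar d)) → ∀ m, M ≤ m →
      SN.samplingNumber 𝕜 d r p q m ≤ ENNReal.ofReal (CD * E) := by
  obtain ⟨CD, hCD, hD⟩ := hDEN 𝕜 d r p hp
  refine ⟨CD, hCD, fun M y ψ E hE h m hm => ?_⟩
  unfold SN.samplingNumber
  refine iInf_le_of_le (fun j : Fin m => if h : (j : ℕ) < M then y ⟨j, h⟩ else fun _ => 0) ?_
  refine iInf_le_of_le (fun j : Fin m => if h : (j : ℕ) < M then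
    (⟨fun t => ((ψ ⟨j, h⟩ t : ℝ) : 𝕜), RCLike.continuous_ofReal.comp (ψ ⟨j, h⟩).continuous⟩ :
      C(Fin d → UnitAddCircle, 𝕜)) else 0) ?_
  refine iSup₂_le fun f hf => ?_
  have hsum : ∀ t, ∑ j : Fin m, f (if h : (j : ℕ) < M then y ⟨j, h⟩ else fun _ => 0) *
      (if h : (j : ℕ) < M then
        (⟨fun t => ((ψ ⟨j, h⟩ t : ℝ) : 𝕜), RCLike.continuous_ofReal.comp (ψ ⟨j, h⟩).continuous⟩ :
          C(Fin d → UnitAddCircle, 𝕜)) else 0) t = ∑ i : Fin M, f (y i) * ((ψ i t : ℝ) : 𝕜) := by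
    intro t
    set F : ℕ → 𝕜 := fun j => if h : j < M then f (y ⟨j, h⟩) * ((ψ ⟨j, h⟩ t : ℝ) : 𝕜) else 0
      with hF
    have h1 : ∑ j : Fin m, f (if h : (j : ℕ) < M then y ⟨j, h⟩ else fun _ => 0) *
      (if h : (j : ℕ) < M then
        (⟨fun t => ((ψ ⟨j, h⟩ t : ℝ) : 𝕜), RCLike.continuous_ofReal.comp (ψ ⟨j, h⟩).continuous⟩ :
          C(Fin d → UnitAddCircle, 𝕜)) else 0) t = ∑ j : Fin m, F j := by
      refine sum_congr rfl fun j _ => ?_
      by_cases hj : (j : ℕ) < M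
      · simp [hF, hj]
      · simp [hF, hj]
    have h2 : ∑ i : Fin M, f (y i) * ((ψ i t : ℝ) : 𝕜) = ∑ i : Fin M, F i := by
      refine sum_congr rfl fun i _ => ?_
      simp [hF]
    rw [h1, h2, Fin.sum_univ_eq_sum_range, Fin.sum_univ_eq_sum_range]
    refine (sum_subset (range_subset_range.2 hm) fun j _ hj => ?_).symm
    have hj' : ¬ j < M := fun h => hj (mem_range.2 h)
    simp [hF, hj']
  have hmeas : (SN.torusMeasure d) = haar d := rfl
  rw [hmeas]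
  have hcongr : eLpNorm (fun t => f t - ∑ j : Fin m,
      f (if h : (j : ℕ) < M then y ⟨j, h⟩ else fun _ => 0) * (if h : (j : ℕ) < M then
        (⟨fun t => ((ψ ⟨j, h⟩ t : ℝ) : 𝕜), RCLike.continuous_ofReal.comp (ψ ⟨j, h⟩).continuous⟩ :
          C(Fin d → UnitAddCircle, 𝕜)) else 0) t) (ENNReal.ofReal q) (haar d) =
      eLpNorm (fun t => SN.toC (f t) - ∑ i : Fin M, SN.toC (f (y i)) * ((ψ i t : ℝ) : ℂ))
        (ENNReal.ofReal q) (haar d) := by
    refine eLpNorm_congr_norm_ae (Filter.Eventually.of_forall fun t => ?_)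
    rw [hsum t, ← norm_toC, toC_sub, toC_sum]
    simp only [toC_mul]
  rw [hcongr]
  set B : ℝ := 1 + ∑ i : Fin M, ‖ψ i‖ with hB
  have hB0 : 0 < B := by
    have : 0 ≤ ∑ i : Fin M, ‖ψ i‖ := sum_nonneg fun i _ => norm_nonneg _
    linarith
  have hfc : Continuous f := hf.1
  refine ENNReal.le_of_forall_pos_le_add fun δ hδ _ => ?_
  have hε : 0 < (δ : ℝ) / B := div_pos (by exact_mod_cast hδ) hB0
  obtain ⟨Λ, c, hc1, hc2⟩ := hD f hf ((δ : ℝ) / B) hε
  set f₀ := tp Λ (mc r c) with hf₀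
  have hf₀c : Continuous f₀ := tp_cont Λ (mc r c)
  have hsplit : (fun t => SN.toC (f t) - ∑ i : Fin M, SN.toC (f (y i)) * ((ψ i t : ℝ) : ℂ)) =
      (fun t => f₀ t - ∑ i, f₀ (y i) * ((ψ i t : ℝ) : ℂ)) +
      fun t => (SN.toC (f t) - f₀ t) - ∑ i, (SN.toC (f (y i)) - f₀ (y i)) *
        ((ψ i t : ℝ) : ℂ) := by
    funext t
    simp only [Pi.add_apply, sub_mul, sum_sub_distrib]
    ring
  have hψ : ∀ i : Fin M, Continuous fun t => ((ψ i t : ℝ) : ℂ) := fun i =>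
    Complex.continuous_ofReal.comp (ψ i).continuous
  have m1 : AEStronglyMeasurable (fun t => f₀ t - ∑ i, f₀ (y i) * ((ψ i t : ℝ) : ℂ)) (haar d) :=
    (hf₀c.sub (continuous_finsetSum _ fun i _ => continuous_const.mul
      (hψ i))).aestronglyMeasurable
  have m2 : AEStronglyMeasurable (fun t => (SN.toC (f t) - f₀ t) -
      ∑ i, (SN.toC (f (y i)) - f₀ (y i)) * ((ψ i t : ℝ) : ℂ)) (haar d) :=
    (((toC_cont.comp hfc).sub hf₀c).sub (continuous_finsetSum _ fun i _ =>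
      continuous_const.mul (hψ i))).aestronglyMeasurable
  have hq1 : 1 ≤ ENNReal.ofReal q := by
    rw [← ENNReal.ofReal_one]
    exact ENNReal.ofReal_le_ofReal hq
  rw [hsplit]
  refine (eLpNorm_add_le m1 m2 hq1).trans ?_
  refine add_le_add ?_ ?_
  · refine (h Λ c).trans ?_
    rw [mul_comm CD E, ENNReal.ofReal_mul hE]
    gcongr
  · have hb : ∀ t, ‖(SN.toC (f t) - f₀ t) - ∑ i, (SN.toC (f (y i)) - f₀ (y i)) *
        ((ψ i t : ℝ) : ℂ)‖ ≤ δ := by
      intro t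
      have h1 : ‖∑ i, (SN.toC (f (y i)) - f₀ (y i)) * ((ψ i t : ℝ) : ℂ)‖ ≤
          ∑ i : Fin M, (δ : ℝ) / B * ‖ψ i‖ := by
        refine (norm_sum_le _ _).trans (sum_le_sum fun i _ => ?_)
        rw [norm_mul, Complex.norm_real]
        exact mul_le_mul (hc2 _) ((ψ i).norm_coe_le_norm t) (norm_nonneg _) hε.le
      refine (norm_sub_le _ _).trans ?_
      refine (add_le_add (hc2 t) h1).trans ?_
      rw [← mul_sum]
      have h2 : (δ : ℝ) / B + (δ : ℝ) / B * ∑ i : Fin M, ‖ψ i‖ = (δ : ℝ) / B * B := by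
        rw [hB]
        ring
      rw [h2, div_mul_cancel₀ _ hB0.ne']
    refine (eLpNorm_le_of_ae_bound (Filter.Eventually.of_forall hb)).trans ?_
    rw [measure_univ, ENNReal.one_rpow, one_mul, ENNReal.ofReal_coe_nnreal]

/-- the choice of the level -/
theorem level (b : ℕ) (hb : 3 ≤ b) (C₁ s : ℝ) (hC : 0 < C₁) (hs : 0 ≤ s) (n₃ : ℕ) (hn : 1 ≤ n₃)
    (x : ℝ) (hx : C₁ * (b : ℝ) ^ n₃ * (n₃ : ℝ) ^ s ≤ x) :
    ∃ n : ℕ, n₃ ≤ n ∧ C₁ * (b : ℝ) ^ n * (n : ℝ) ^ s ≤ x ∧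
      x < C₁ * (b : ℝ) ^ (n + 1) * ((n + 1 : ℕ) : ℝ) ^ s := by
  have hb1 : (1 : ℝ) < b := by exact_mod_cast (by omega : 1 < b)
  have hex : ∃ n : ℕ, n₃ ≤ n ∧ x < C₁ * (b : ℝ) ^ (n + 1) * ((n + 1 : ℕ) : ℝ) ^ s := by
    obtain ⟨k, hk⟩ := pow_unbounded_of_one_lt (x / C₁) hb1
    refine ⟨max k n₃, le_max_right _ _, ?_⟩
    have h1 : x < C₁ * (b : ℝ) ^ k := by
      rw [div_lt_iff₀ hC] at hk
      linarith
    have h2 : (b : ℝ) ^ k ≤ (b : ℝ) ^ (max k n₃ + 1) :=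
      pow_le_pow_right₀ hb1.le (le_trans (le_max_left _ _) (Nat.le_succ _))
    have h3 : (1 : ℝ) ≤ ((max k n₃ + 1 : ℕ) : ℝ) ^ s :=
      Real.one_le_rpow (by exact_mod_cast Nat.succ_le_succ (Nat.zero_le _)) hs
    have h4 : 0 < C₁ * (b : ℝ) ^ (max k n₃ + 1) := by positivity
    calc x < C₁ * (b : ℝ) ^ k := h1
      _ ≤ C₁ * (b : ℝ) ^ (max k n₃ + 1) := mul_le_mul_of_nonneg_left h2 hC.le
      _ ≤ C₁ * (b : ℝ) ^ (max k n₃ + 1) * ((max k n₃ + 1 : ℕ) : ℝ) ^ s :=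
        le_mul_of_one_le_right h4.le h3
  refine ⟨Nat.find hex, (Nat.find_spec hex).1, ?_, (Nat.find_spec hex).2⟩
  by_contra hcon
  push Not at hcon
  have h5 := (Nat.find_spec hex).1
  rcases Nat.lt_or_ge n₃ (Nat.find hex) with h | h
  · have h6 := Nat.find_min hex (m := Nat.find hex - 1) (by omega)
    apply h6
    refine ⟨by omega, ?_⟩
    have h7 : Nat.find hex - 1 + 1 = Nat.find hex := by omega
    rw [h7]
    exact hcon
  · have h8 : Nat.find hex = n₃ := le_antisymm h h5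
    rw [h8] at hcon
    linarith

/-- the estimate for large `m` -/
theorem large (b : ℕ) (hb : 3 ≤ b) (C₁ s s₂ α : ℝ) (hC : 0 < C₁) (hs : 0 ≤ s) (hs2 : s ≤ s₂)
    (hα : 0 < α) : ∃ K : ℝ, 0 < K ∧ ∀ (n : ℕ) (x : ℝ), 1 ≤ n → 2 ≤ x →
      C₁ * (b : ℝ) ^ n * (n : ℝ) ^ s ≤ x →
      x < C₁ * (b : ℝ) ^ (n + 1) * ((n + 1 : ℕ) : ℝ) ^ s →
      (b : ℝ) ^ (-((n : ℝ) * α)) ≤ K * (x⁻¹ * Real.log x ^ s₂) ^ α := by
  have hb3 : (3 : ℝ) ≤ b := by exact_mod_cast hb
  have hb0 : (0 : ℝ) < b := by linarith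
  have hlb : 0 < Real.log b := Real.log_pos (by linarith)
  have hl2 : 0 < Real.log 2 := Real.log_pos (by norm_num)
  set C₃ : ℝ := (1 + |Real.log C₁| / Real.log 2) / Real.log b with hC3
  have hC3p : 0 < C₃ := by positivity
  set C₄ : ℝ := C₁ * b * (2 : ℝ) ^ s * C₃ ^ s with hC4
  have hC4p : 0 < C₄ := by positivity
  set C₆ : ℝ := Real.log 2 ^ (s - s₂) with hC6
  have hC6p : 0 < C₆ := by positivity
  refine ⟨(C₄ * C₆) ^ α, by positivity, fun n x hn hx h1 h2 => ?_⟩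
  have hn1 : (1 : ℝ) ≤ n := by exact_mod_cast hn
  have hn0 : (0 : ℝ) < n := by linarith
  have hx0 : 0 < x := by linarith
  have hL2 : Real.log 2 ≤ Real.log x := Real.log_le_log (by norm_num) hx
  have hL : 0 < Real.log x := by linarith
  have hbn : 0 < (b : ℝ) ^ n := by positivity
  -- bound for n
  have hnL : (n : ℝ) ≤ C₃ * Real.log x := by
    have h3 : C₁ * (b : ℝ) ^ n ≤ x := by
      refine le_trans ?_ h1
      exact le_mul_of_one_le_right (by positivity) (Real.one_le_rpow hn1 hs)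
    have h4 : Real.log C₁ + n * Real.log b ≤ Real.log x := by
      rw [← Real.log_pow, ← Real.log_mul hC.ne' hbn.ne']
      exact Real.log_le_log (by positivity) h3
    have h5 : -Real.log C₁ ≤ |Real.log C₁| / Real.log 2 * Real.log x := by
      have h6 : |Real.log C₁| ≤ |Real.log C₁| / Real.log 2 * Real.log x := by
        rw [div_mul_eq_mul_div, le_div_iff₀ hl2]
        exact mul_le_mul_of_nonneg_left hL2 (abs_nonneg _)
      exact le_trans (neg_le_abs _) h6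
    rw [hC3, div_mul_eq_mul_div, le_div_iff₀ hlb]
    nlinarith
  -- bound for b ^ (-n)
  have h7 : ((b : ℝ) ^ n)⁻¹ ≤ C₄ * C₆ * (x⁻¹ * Real.log x ^ s₂) := by
    have h8 : ((n + 1 : ℕ) : ℝ) ^ s ≤ (2 : ℝ) ^ s * (n : ℝ) ^ s := by
      rw [← Real.mul_rpow (by norm_num) hn0.le]
      refine Real.rpow_le_rpow (by positivity) ?_ hs
      push_cast
      linarith
    have h9 : (n : ℝ) ^ s ≤ C₃ ^ s * Real.log x ^ s := by
      rw [← Real.mul_rpow hC3p.le hL.le]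
      exact Real.rpow_le_rpow hn0.le hnL hs
    have h10 : Real.log x ^ s ≤ C₆ * Real.log x ^ s₂ := by
      have h11 : Real.log x ^ s = Real.log x ^ (s - s₂) * Real.log x ^ s₂ := by
        rw [← Real.rpow_add hL]
        congr 1
        ring
      rw [h11]
      refine mul_le_mul_of_nonneg_right ?_ (by positivity)
      exact Real.rpow_le_rpow_of_nonpos hl2 hL2 (by linarith)
    have h12 : x ≤ (b : ℝ) ^ n * (C₄ * C₆ * Real.log x ^ s₂) := by
      calc x ≤ C₁ * (b : ℝ) ^ (n + 1) * ((n + 1 : ℕ) : ℝ) ^ s := h2.le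
        _ ≤ C₁ * (b : ℝ) ^ (n + 1) * ((2 : ℝ) ^ s * (C₃ ^ s * (C₆ * Real.log x ^ s₂))) := by
          refine mul_le_mul_of_nonneg_left ?_ (by positivity)
          refine h8.trans (mul_le_mul_of_nonneg_left ?_ (by positivity))
          exact h9.trans (mul_le_mul_of_nonneg_left h10 (by positivity))
        _ = (b : ℝ) ^ n * (C₄ * C₆ * Real.log x ^ s₂) := by
          rw [hC4, pow_succ]
          ring
    rw [inv_le_iff_one_le_mul₀ hbn]
    have h13 : 1 ≤ x⁻¹ * ((b : ℝ) ^ n * (C₄ * C₆ * Real.log x ^ s₂)) := by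
      rw [← div_eq_inv_mul, one_le_div hx0]
      exact h12
    linarith
  have h14 : (b : ℝ) ^ (-((n : ℝ) * α)) = (((b : ℝ) ^ n)⁻¹) ^ α := by
    rw [Real.rpow_neg hb0.le, Real.inv_rpow hbn.le, Real.rpow_mul hb0.le, Real.rpow_natCast]
  rw [h14]
  have h15 : 0 ≤ x⁻¹ * Real.log x ^ s₂ := by positivity
  rw [← Real.mul_rpow (by positivity) h15]
  exact Real.rpow_le_rpow (by positivity) h7 hα.le

end Fin91

theorem st_FIN (hMAIN : ST_MAIN) (hDEN : ST_DEN) (hEMB : ST_EMB) : ST_FIN := by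
  intro 𝕜 _ d p q r κ hd hp hp2 hq hr hκ
  have hp0 : 0 < p := by linarith
  have hq0 : 0 < q := by linarith
  have hγ : 0 < r - 1 / p := by linarith
  have hqi : 0 < 1 / q := by positivity
  have hα : 0 < r - 1 / p + 1 / q := by linarith
  have hμ1 : max (1 - 1 / p) (1 / q) < 1 / 2 := by
    refine max_lt ?_ ?_
    · have : 1 / 2 < 1 / p := one_div_lt_one_div_of_lt hp0 hp2
      linarith
    · exact one_div_lt_one_div_of_lt (by norm_num) hq
  have hμ0 : 0 < max (1 - 1 / p) (1 / q) := lt_max_of_lt_right hqi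
  set κ₁ := (r - 1 / p + 2 * max (1 - 1 / p) (1 / q)) / (r - 1 / p + 1) with hκ1
  have hκ1p : 0 < κ₁ := by positivity
  have hκ1l : κ₁ < 1 := by
    rw [hκ1, div_lt_one (by linarith)]
    linarith
  set κ' := min κ ((1 + κ₁) / 2) with hκ'
  have h1 : κ₁ < κ' := lt_min hκ (by linarith)
  have h2 : κ' < 1 := lt_of_le_of_lt (min_le_right _ _) (by linarith)
  have hd1 : (1 : ℝ) ≤ (d : ℝ) - 1 := by
    have : (2 : ℝ) ≤ d := by exact_mod_cast hd
    linarith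
  have hs : 0 ≤ ((d : ℝ) - 1) * κ' := mul_nonneg (by linarith) (by linarith)
  have hs2 : ((d : ℝ) - 1) * κ' ≤ ((d : ℝ) - 1) * κ :=
    mul_le_mul_of_nonneg_left (min_le_left _ _) (by linarith)
  obtain ⟨b, C₁, n₂, hb, hC1, hM⟩ := hMAIN d p q r κ' hd hp hp2 hq hr h1 h2
  obtain ⟨C₅, hC5, hE⟩ := hEMB d p q r (by omega) hp (by linarith) hr
  obtain ⟨CD, hCD, hT⟩ := Fin91.transfer hDEN 𝕜 d r p q hp.le (by linarith)
  obtain ⟨K, hK, hL⟩ := Fin91.large b hb C₁ (((d : ℝ) - 1) * κ') (((d : ℝ) - 1) * κ)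
    (r - 1 / p + 1 / q) hC1 hs hs2 hα
  set n₃ := max n₂ 1 with hn3
  set g := C₁ * (b : ℝ) ^ n₃ * (n₃ : ℝ) ^ (((d : ℝ) - 1) * κ') with hg
  have hb0 : (0 : ℝ) < b := by exact_mod_cast (by omega : 0 < b)
  have hl2 : 0 < Real.log 2 := Real.log_pos (by norm_num)
  have hg0 : 0 < g := by
    have : (0 : ℝ) < n₃ := by exact_mod_cast (lt_of_lt_of_le one_pos (le_max_right n₂ 1))
    positivity
  set c₀ := (g⁻¹ * Real.log 2 ^ (((d : ℝ) - 1) * κ)) ^ (r - 1 / p + 1 / q) with hc0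
  have hc0p : 0 < c₀ := by positivity
  have hEm : ∀ m : ℕ, SN.samplingNumber 𝕜 d r p q m ≤ ENNReal.ofReal (CD * C₅) := by
    intro m
    refine hT 0 (fun i => i.elim0) (fun i => i.elim0) C₅ hC5.le (fun Λ c => ?_) m (Nat.zero_le m)
    simp only [univ_eq_empty, sum_empty, sub_zero]
    exact hE Λ c
  refine ⟨CD * C₁ * K + CD * C₅ / c₀, by positivity, fun m hm => ?_⟩
  have hm2 : (2 : ℝ) ≤ m := by exact_mod_cast hm
  have hm0 : (0 : ℝ) < m := by linarith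
  have hLm : Real.log 2 ≤ Real.log m := Real.log_le_log (by norm_num) hm2
  have hLm0 : 0 < Real.log m := by linarith
  set X := ((m : ℝ)⁻¹ * Real.log m ^ (((d : ℝ) - 1) * κ)) ^ (r - 1 / p + 1 / q) with hX
  have hX0 : 0 < X := by positivity
  rcases le_or_gt g (m : ℝ) with hgm | hgm
  · obtain ⟨n, hn, hn1, hn2⟩ := Fin91.level b hb C₁ (((d : ℝ) - 1) * κ') hC1 hs n₃
      (le_max_right _ _) m hgm
    obtain ⟨M, y, ψ, hMle, hMe⟩ := hM n (le_trans (le_max_left _ _) hn)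
    have hMm : M ≤ m := by exact_mod_cast hMle.trans hn1
    have h3 := hT M y ψ (C₁ * (b : ℝ) ^ (-((n : ℝ) * (r - 1 / p + 1 / q)))) (by positivity) hMe
      m hMm
    refine h3.trans (ENNReal.ofReal_le_ofReal ?_)
    have h4 := hL n m (le_trans (le_max_right _ _) hn) hm2 hn1 hn2
    have h5 : 0 ≤ CD * C₅ / c₀ * X := by positivity
    have h6 : CD * (C₁ * (b : ℝ) ^ (-((n : ℝ) * (r - 1 / p + 1 / q)))) ≤ CD * C₁ * K * X := by
      have h7 : 0 < CD * C₁ := by positivity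
      nlinarith [mul_le_mul_of_nonneg_left h4 h7.le]
    linarith
  · refine (hEm m).trans (ENNReal.ofReal_le_ofReal ?_)
    have h3 : c₀ ≤ X := by
      rw [hc0, hX]
      refine Real.rpow_le_rpow (by positivity) ?_ hα.le
      have hκ0 : 0 ≤ ((d : ℝ) - 1) * κ := le_trans hs hs2
      exact mul_le_mul (inv_anti₀ hm0 hgm.le) (Real.rpow_le_rpow hl2.le hLm hκ0) (by positivity)
        (by positivity)
    have h4 : CD * C₅ ≤ CD * C₅ / c₀ * X := by
      rw [div_mul_eq_mul_div, le_div_iff₀ hc0p]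
      exact mul_le_mul_of_nonneg_left h3 (by positivity)
    have h5 : 0 ≤ CD * C₁ * K * X := by positivity
    linarith

end Pool.Agent.Helper37.SU
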