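import Pool.Agent.Helper37.SU.Stmts

set_option autoImplicit false

/-!
Module ANL of the project SU: the analysis estimate.
-/

namespace Pool.Agent.Helper91.SU

open Pool.Agent.Helper37.SU
open MeasureTheory Finset
open scoped ENNReal Classical

theorem anl_up {ι κ : Type} (v C : ℝ) (S : Finset ι) (T : Finset κ) (y : ι → ℂ) (z : κ → ℂ)
    (hv : 0 < v) (hC : 0 ≤ C) (h : lp v S y ≤ C * lp v T z) :
    ∑ i ∈ S, ‖y i‖ ^ v ≤ C ^ v * ∑ j ∈ T, ‖z j‖ ^ v := by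
  have h1 : 0 ≤ ∑ i ∈ S, ‖y i‖ ^ v := Finset.sum_nonneg fun i _ => Real.rpow_nonneg (norm_nonneg _) _
  have h2 : 0 ≤ ∑ j ∈ T, ‖z j‖ ^ v := Finset.sum_nonneg fun i _ => Real.rpow_nonneg (norm_nonneg _) _
  unfold Pool.Agent.Helper37.SU.lp at h
  have h3 := Real.rpow_le_rpow (Real.rpow_nonneg h1 _) h hv.le
  rw [Real.mul_rpow hC (Real.rpow_nonneg h2 _), ← Real.rpow_mul h1, ← Real.rpow_mul h2,
    one_div_mul_cancel hv.ne', Real.rpow_one, Real.rpow_one] at h3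
  exact h3

theorem anl_down {ι κ : Type} (v C : ℝ) (S : Finset ι) (T : Finset κ) (y : ι → ℂ) (z : κ → ℂ)
    (hv : 0 < v) (hC : 0 ≤ C)
    (h : ∑ i ∈ S, ‖y i‖ ^ v ≤ C ^ v * ∑ j ∈ T, ‖z j‖ ^ v) : lp v S y ≤ C * lp v T z := by
  have h1 : 0 ≤ ∑ i ∈ S, ‖y i‖ ^ v := Finset.sum_nonneg fun i _ => Real.rpow_nonneg (norm_nonneg _) _
  have h2 : 0 ≤ ∑ j ∈ T, ‖z j‖ ^ v := Finset.sum_nonneg fun i _ => Real.rpow_nonneg (norm_nonneg _) _
  unfold Pool.Agent.Helper37.SU.lp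
  have h3 := Real.rpow_le_rpow h1 h (one_div_nonneg.2 hv.le)
  rw [Real.mul_rpow (Real.rpow_nonneg hC _) h2, ← Real.rpow_mul hC,
    mul_one_div_cancel hv.ne', Real.rpow_one] at h3
  exact h3

theorem anl_fix (b d l : ℕ) (v C : ℝ) (hv : 0 < v) (hC : 0 ≤ C)
    (h3 : ∀ (s : Fin d → ℕ) (g : TT d → ℂ),
      lp v (gr b s) (fun a => Dop b s g (ptv b (s, a))) ≤
        C * lp v (gr b s) (fun a => g (ptv b (s, a))))
    (g : (Fin d → ℕ) → TT d → ℂ) :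
    lp v (lev b d l) (fun B => Dop b B.1 (g B.1) (ptv b B)) ≤
      C * lp v (lev b d l) (fun B => g B.1 (ptv b B)) := by
  refine anl_down v C _ _ _ _ hv hC ?_
  rw [sum_lev, sum_lev, Finset.mul_sum]
  refine Finset.sum_le_sum fun s _ => ?_
  exact anl_up v C (gr b s) (gr b s) (fun a => Dop b s (g s) (ptv b (s, a)))
    (fun a => g s (ptv b (s, a))) hv hC (h3 s (g s))

theorem anl_geo (b d J : ℕ) (γ : ℝ) (hb : 3 ≤ b) (hγ : 0 < γ) :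
    ∑ τ ∈ Fintype.piFinset (fun _ : Fin d => range J),
      (b : ℝ) ^ (-(((∑ i, τ i : ℕ) : ℝ) * γ)) ≤ (1 / (1 - (b : ℝ) ^ (-γ))) ^ d := by
  have hb1 : (1 : ℝ) < b := by
    have : (3 : ℝ) ≤ b := by exact_mod_cast hb
    linarith
  have hb0 : (0 : ℝ) < b := by linarith
  have hρ0 : 0 < (b : ℝ) ^ (-γ) := Real.rpow_pos_of_pos hb0 _
  have hρ1 : (b : ℝ) ^ (-γ) < 1 := Real.rpow_lt_one_of_one_lt_of_neg hb1 (by linarith)
  have h1 : ∀ τ : Fin d → ℕ, (b : ℝ) ^ (-(((∑ i, τ i : ℕ) : ℝ) * γ)) =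
      ∏ i, ((b : ℝ) ^ (-γ)) ^ (τ i) := by
    intro τ
    rw [Finset.prod_pow_eq_pow_sum, ← Real.rpow_natCast, ← Real.rpow_mul hb0.le]
    congr 1
    ring
  have h2 : ∑ τ ∈ Fintype.piFinset (fun _ : Fin d => range J),
      (b : ℝ) ^ (-(((∑ i, τ i : ℕ) : ℝ) * γ)) =
      ∏ _i : Fin d, ∑ t ∈ range J, ((b : ℝ) ^ (-γ)) ^ t := by
    rw [Finset.prod_univ_sum]
    exact Finset.sum_congr rfl fun τ _ => h1 τ
  rw [h2, Finset.prod_const, Finset.card_univ, Fintype.card_fin]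
  refine pow_le_pow_left₀ (Finset.sum_nonneg fun t _ => pow_nonneg hρ0.le _) ?_ d
  rw [one_div]
  exact (Summable.sum_le_tsum (range J) (fun t _ => pow_nonneg hρ0.le _)
    (summable_geometric_of_lt_one hρ0.le hρ1)).trans
    (le_of_eq (tsum_geometric_of_lt_one hρ0.le hρ1))

/-- ANL: the analysis estimate. -/
theorem st_ANL (hAN0 : ST_AN0) (hAN2 : ST_AN2) (hAN3 : ST_AN3) (hLPT : ST_LPT) : ST_ANL := by
  intro b d p v r hb hp hpv hr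
  have hv : 0 < v := by linarith
  have hv1 : 1 ≤ v := by linarith
  have hγ : 0 < r - 1 / p := by linarith
  obtain ⟨C₂, hC₂, h2⟩ := hAN2 b d p v r (by omega) hp hpv
  obtain ⟨C₃, hC₃, h3⟩ := hAN3 b d v hb hv1
  have hb1 : (1 : ℝ) < b := by
    have : (3 : ℝ) ≤ b := by exact_mod_cast hb
    linarith
  have hb0 : (0 : ℝ) < b := by linarith
  have hρ1 : (b : ℝ) ^ (-(r - 1 / p)) < 1 :=
    Real.rpow_lt_one_of_one_lt_of_neg hb1 (by linarith)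
  have hG : 0 < (1 / (1 - (b : ℝ) ^ (-(r - 1 / p)))) ^ d :=
    pow_pos (one_div_pos.2 (by linarith)) _
  refine ⟨C₃ * C₂ * (1 / (1 - (b : ℝ) ^ (-(r - 1 / p)))) ^ d,
    mul_pos (mul_pos hC₃ hC₂) hG, ?_⟩
  intro l Λ c
  obtain ⟨J, hJ⟩ := hAN0 b d r Λ c hb
  have hN : 0 ≤ (eLpNorm (tp Λ c) (ENNReal.ofReal p) (haar d)).toReal := ENNReal.toReal_nonneg
  have e1 : zz b (tp Λ (mc r c)) = fun B : Bo d =>
      ∑ τ ∈ Fintype.piFinset (fun _ : Fin d => range J),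
        Dop b B.1 (dl r b (fun i => B.1 i + τ i - 1) Λ c) (ptv b B) := by
    funext B
    exact hJ J le_rfl B.1 (ptv b B)
  rw [e1]
  refine (hLPT.1 (Bo d) (Fin d → ℕ) v (lev b d l)
    (Fintype.piFinset (fun _ : Fin d => range J))
    (fun τ B => Dop b B.1 (dl r b (fun i => B.1 i + τ i - 1) Λ c) (ptv b B)) hv1).trans ?_
  have h4 : ∀ τ : Fin d → ℕ,
      lp v (lev b d l) (fun B => Dop b B.1 (dl r b (fun i => B.1 i + τ i - 1) Λ c) (ptv b B)) ≤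
        C₃ * C₂ * (b : ℝ) ^ (-((l : ℝ) * (r - 1 / p))) *
          (eLpNorm (tp Λ c) (ENNReal.ofReal p) (haar d)).toReal *
          (b : ℝ) ^ (-(((∑ i, τ i : ℕ) : ℝ) * (r - 1 / p))) := by
    intro τ
    refine (anl_fix b d l v C₃ hv hC₃.le h3 (fun s => dl r b (fun i => s i + τ i - 1) Λ c)).trans ?_
    refine (mul_le_mul_of_nonneg_left (h2 l τ Λ c) hC₃.le).trans (le_of_eq ?_)
    have h5 : (b : ℝ) ^ (-(((l : ℝ) + ((∑ i, τ i : ℕ) : ℝ)) * (r - 1 / p))) =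
        (b : ℝ) ^ (-((l : ℝ) * (r - 1 / p))) *
          (b : ℝ) ^ (-(((∑ i, τ i : ℕ) : ℝ) * (r - 1 / p))) := by
      rw [← Real.rpow_add hb0]
      congr 1
      ring
    rw [h5]
    ring
  refine (Finset.sum_le_sum fun τ _ => h4 τ).trans ?_
  rw [← Finset.mul_sum]
  have h6 := anl_geo b d J (r - 1 / p) hb hγ
  have h7 : 0 ≤ C₃ * C₂ * (b : ℝ) ^ (-((l : ℝ) * (r - 1 / p))) *
      (eLpNorm (tp Λ c) (ENNReal.ofReal p) (haar d)).toReal :=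
    mul_nonneg (mul_nonneg (mul_nonneg hC₃.le hC₂.le) (Real.rpow_nonneg hb0.le _)) hN
  refine (mul_le_mul_of_nonneg_left h6 h7).trans (le_of_eq ?_)
  ring

end Pool.Agent.Helper91.SU
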